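import Mathlib

/-!
# A logically homogeneous semigroup whose semigroup algebra over the two element field is not
logically homogeneous
-/

namespace Pool.Agent.Results.MP_c05c30_lc.Counterexample

open FirstOrder FirstOrder.Language

/-! ### Definitions -/

/-- `H` is logically homogeneous as a structure of the language `L` : tuples with the same type
are conjugate under an automorphism -/
def LogicallyHomogeneous (L : FirstOrder.Language.{0, 0}) (H : Type) [L.Structure H] : Prop :=
  ∀ (n : ℕ) (u v : Fin n → H),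
    (∀ φ : L.Formula (Fin n), φ.Realize u ↔ φ.Realize v) → ∃ σ : H ≃[L] H, ∀ i, σ (u i) = v i

/-- the operation symbol of semigroups -/
inductive SgFun : ℕ → Type
  | mul : SgFun 2

/-- the language of semigroups: one binary operation -/
def Lsg : FirstOrder.Language.{0, 0} := ⟨SgFun, fun _ => Empty⟩

/-- a set with a multiplication as a structure of the language of semigroups -/
instance sgStructure (S : Type) [Mul S] : Lsg.Structure S where
  funMap := fun {_} f x => match f, x with
    | SgFun.mul, x => x 0 * x 1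
  RelMap := fun {_} r _ => nomatch r

/-- the operation symbols of associative algebras over `P`: the ring operations and the
multiplications by scalars -/
inductive AlgFun (P : Type) : ℕ → Type
  | add : AlgFun P 2
  | mul : AlgFun P 2
  | neg : AlgFun P 1
  | zero : AlgFun P 0
  | smul (c : P) : AlgFun P 1

/-- the language of associative algebras over `P` -/
def Lalg (P : Type) : FirstOrder.Language.{0, 0} := ⟨AlgFun P, fun _ => Empty⟩

/-- an algebra over `P` as a structure of the language of associative algebras over `P` -/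
instance algStructure (P A : Type) [NonUnitalRing A] [SMul P A] : (Lalg P).Structure A where
  funMap := fun {_} f x => match f, x with
    | AlgFun.add, x => x 0 + x 1
    | AlgFun.mul, x => x 0 * x 1
    | AlgFun.neg, x => - x 0
    | AlgFun.zero, _ => 0
    | AlgFun.smul c, x => c • x 0
  RelMap := fun {_} r _ => nomatch r

/-- the field `P` is logically homogeneous in the language of rings -/
def FieldLogicallyHomogeneous (P : Type) [Field P] : Prop :=
  letI : Language.ring.Structure P := (FirstOrder.Ring.compatibleRingOfRing P).toStructure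
  LogicallyHomogeneous Language.ring P

/-! ### The semigroup -/

/-- the semigroup -/
inductive Sg (Y : Type) : Type
  | a | a' | b | b' | z
  | x (n : ℕ)
  | y (r : Y)

namespace Sg

variable {Y : Type}

/-- the multiplication -/
def mul : Sg Y → Sg Y → Sg Y
  | a, a => a
  | a, a' => a'
  | a', a => a'
  | b, b => b
  | b, b' => b'
  | b', b => b'
  | b', b' => b
  | a, x n => x n
  | b, y r => y r
  | b', y r => y r
  | _, _ => z

instance : Mul (Sg Y) := ⟨mul⟩

theorem mul_def (s t : Sg Y) : s * t = mul s t := rfl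

instance : Semigroup (Sg Y) where
  mul_assoc s t u := by
    cases s <;> cases t <;> cases u <;> rfl

/-- renaming the letters -/
def map {Y' : Type} (f : ℕ → ℕ) (g : Y → Y') : Sg Y → Sg Y'
  | a => a
  | a' => a'
  | b => b
  | b' => b'
  | z => z
  | x n => x (f n)
  | y r => y (g r)

theorem map_mul {Y' : Type} (f : ℕ → ℕ) (g : Y → Y') (s t : Sg Y) :
    map f g (s * t) = map f g s * map f g t := by
  cases s <;> cases t <;> rfl

/-- permuting the letters -/
def perm (f : Equiv.Perm ℕ) (g : Equiv.Perm Y) : Sg Y ≃* Sg Y where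
  toFun := map f g
  invFun := map f.symm g.symm
  left_inv t := by cases t <;> simp [map]
  right_inv t := by cases t <;> simp [map]
  map_mul' := map_mul f g

theorem z_iff (t : Sg Y) : (∀ s, t * s = t) ↔ t = z := by
  constructor
  · intro h
    have ha := h a
    have hb := h b
    cases t <;> simp_all [mul_def, mul]
  · rintro rfl s
    cases s <;> rfl

theorem b_iff (t : Sg Y) : (∃ w, w * w = t ∧ ¬ w * t = t) ↔ t = b := by
  constructor
  · rintro ⟨w, rfl, h⟩
    cases w <;> simp_all [mul_def, mul]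
  · rintro rfl
    exact ⟨b', rfl, by simp [mul_def, mul]⟩

theorem b'_iff (t : Sg Y) : (t * t * t = t ∧ ¬ t * t = t) ↔ t = b' := by
  cases t <;> simp [mul_def, mul]

theorem a_iff (t : Sg Y) : (t * t = t ∧ ¬ t = z ∧ ¬ t = b) ↔ t = a := by
  cases t <;> simp [mul_def, mul]

theorem a'_iff (t : Sg Y) : ((∃ s, t * s = t) ∧ ¬ t * t = t ∧ ¬ t = b') ↔ t = a' := by
  constructor
  · rintro ⟨⟨s, hs⟩, h1, h2⟩
    cases t <;> cases s <;> simp_all [mul_def, mul]
  · rintro rfl
    exact ⟨⟨a, rfl⟩, by simp [mul_def, mul], by simp⟩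

theorem y_iff (t : Sg Y) : ((∀ s, ¬ t * s = t) ∧ ∃ s, s * t = t ∧ ¬ s * s = s) ↔ ∃ r, t = y r := by
  constructor
  · rintro ⟨h1, s, h2, h3⟩
    have ha := h1 a
    have hb := h1 b
    have hz := h1 z
    cases t <;> cases s <;> simp_all [mul_def, mul]
  · rintro ⟨r, rfl⟩
    refine ⟨fun s => ?_, b', rfl, by simp [mul_def, mul]⟩
    cases s <;> simp [mul_def, mul]

/-- the product of two terms -/
def mt {α : Type} (t₁ t₂ : Lsg.Term α) : Lsg.Term α := Functions.apply₂ SgFun.mul t₁ t₂

@[simp] theorem realize_mt {S : Type} [Mul S] {α : Type} (v : α → S) (t₁ t₂ : Lsg.Term α) :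
    (mt t₁ t₂).realize v = t₁.realize v * t₂.realize v := rfl

section formulas

variable {n : ℕ}

/-- the free variable `i` -/
abbrev fv (i : Fin n) (k : ℕ) : Lsg.Term (Fin n ⊕ Fin k) := Term.var (Sum.inl i)

/-- the bound variable -/
abbrev bv : Lsg.Term (Fin n ⊕ Fin 1) := Term.var (Sum.inr 0)

def fz (i : Fin n) : Lsg.Formula (Fin n) :=
  ((Term.bdEqual (mt (fv i 1) bv) (fv i 1) : Lsg.BoundedFormula (Fin n) 1)).all

def fb (i : Fin n) : Lsg.Formula (Fin n) :=
  ((Term.bdEqual (mt bv bv) (fv i 1) ⊓ (Term.bdEqual (mt bv (fv i 1)) (fv i 1)).not :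
    Lsg.BoundedFormula (Fin n) 1)).ex

def fb' (i : Fin n) : Lsg.Formula (Fin n) :=
  ((Term.bdEqual (mt (mt (fv i 0) (fv i 0)) (fv i 0)) (fv i 0) ⊓
    (Term.bdEqual (mt (fv i 0) (fv i 0)) (fv i 0)).not : Lsg.BoundedFormula (Fin n) 0))

def fa (i : Fin n) : Lsg.Formula (Fin n) :=
  (Term.bdEqual (mt (fv i 0) (fv i 0)) (fv i 0) : Lsg.BoundedFormula (Fin n) 0) ⊓
    ((fz i).not ⊓ (fb i).not)

def fa' (i : Fin n) : Lsg.Formula (Fin n) :=
  ((Term.bdEqual (mt (fv i 1) bv) (fv i 1) : Lsg.BoundedFormula (Fin n) 1)).ex ⊓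
    ((Term.bdEqual (mt (fv i 0) (fv i 0)) (fv i 0) : Lsg.BoundedFormula (Fin n) 0).not ⊓
      (fb' i).not)

def fy (i : Fin n) : Lsg.Formula (Fin n) :=
  ((Term.bdEqual (mt (fv i 1) bv) (fv i 1) : Lsg.BoundedFormula (Fin n) 1)).not.all ⊓
    ((Term.bdEqual (mt bv (fv i 1)) (fv i 1) ⊓ (Term.bdEqual (mt bv bv) bv).not :
    Lsg.BoundedFormula (Fin n) 1)).ex

def feq (i j : Fin n) : Lsg.Formula (Fin n) :=
  (Term.bdEqual (fv i 0) (fv j 0) : Lsg.BoundedFormula (Fin n) 0)

variable (u : Fin n → Sg Y) (i j : Fin n)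

theorem realize_fz : (fz i).Realize u ↔ u i = z := by
  rw [← z_iff]
  simp [fz, Formula.Realize, Fin.snoc]

theorem realize_fb : (fb i).Realize u ↔ u i = b := by
  rw [← b_iff]
  simp [fb, Formula.Realize, Fin.snoc]

theorem realize_fb' : (fb' i).Realize u ↔ u i = b' := by
  rw [← b'_iff]
  simp [fb', Formula.Realize]

theorem realize_fa : (fa i).Realize u ↔ u i = a := by
  rw [← a_iff, ← realize_fz, ← realize_fb]
  simp [fa, Formula.Realize]

theorem realize_fa' : (fa' i).Realize u ↔ u i = a' := by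
  rw [← a'_iff, ← realize_fb']
  simp [fa', Formula.Realize, Fin.snoc]

theorem realize_fy : (fy i).Realize u ↔ ∃ r, u i = y r := by
  rw [← y_iff]
  simp [fy, Formula.Realize, Fin.snoc]

theorem realize_feq : (feq i j).Realize u ↔ u i = u j := by
  simp [feq, Formula.Realize]

end formulas

end Sg

/-- a finite partial injection, given by two tuples, extends to a permutation -/
theorem perm_ext {α ι : Type} [Finite ι] (u v : ι → α) (h : ∀ i j, u i = u j ↔ v i = v j) :
    ∃ g : Equiv.Perm α, ∀ i, g (u i) = v i := by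
  classical
  obtain ⟨m, ⟨e⟩⟩ := Finite.exists_equiv_fin (Set.range u)
  choose c hc using fun k : Fin m => (e.symm k).2
  let p : Fin m ↪ α := ⟨fun k => (e.symm k : α), fun k l hkl =>
    e.symm.injective (Subtype.ext hkl)⟩
  let q : Fin m ↪ α := ⟨fun k => v (c k), fun k l hkl => by
    have h1 : u (c k) = u (c l) := (h _ _).2 hkl
    rw [hc, hc] at h1
    exact e.symm.injective (Subtype.ext h1)⟩
  obtain ⟨g, hg⟩ := (MulAction.isMultiplyPretransitive_iff (G := Equiv.Perm α)).1
    (Equiv.Perm.isMultiplyPretransitive α m) p q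
  refine ⟨g, fun i => ?_⟩
  have h1 := DFunLike.congr_fun hg (e ⟨u i, i, rfl⟩)
  have h2 : g (p (e ⟨u i, i, rfl⟩)) = q (e ⟨u i, i, rfl⟩) := h1
  have h3 : p (e ⟨u i, i, rfl⟩) = u i := by
    change ((e.symm (e ⟨u i, i, rfl⟩) : Set.range u) : α) = u i
    rw [Equiv.symm_apply_apply]
  have h4 : q (e ⟨u i, i, rfl⟩) = v i := by
    change v (c (e ⟨u i, i, rfl⟩)) = v i
    rw [← h, hc, Equiv.symm_apply_apply]
  rw [h3, h4] at h2
  exact h2

/-- isomorphisms of semigroups as isomorphisms of structures -/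
def sgEquiv {S T : Type} [Mul S] [Mul T] (e : S ≃* T) : S ≃[Lsg] T where
  toEquiv := e.toEquiv
  map_fun' := by
    intro n f w
    change SgFun n at f
    cases f
    exact e.map_mul (w 0) (w 1)
  map_rel' := fun {_} r _ => nomatch r

namespace Sg

theorem homogeneous (Y : Type) : LogicallyHomogeneous Lsg (Sg Y) := by
  intro n u v huv
  have hz : ∀ i, u i = z ↔ v i = z := fun i => by
    rw [← realize_fz, ← realize_fz]; exact huv _
  have hb : ∀ i, u i = b ↔ v i = b := fun i => by
    rw [← realize_fb, ← realize_fb]; exact huv _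
  have hb' : ∀ i, u i = b' ↔ v i = b' := fun i => by
    rw [← realize_fb', ← realize_fb']; exact huv _
  have ha : ∀ i, u i = a ↔ v i = a := fun i => by
    rw [← realize_fa, ← realize_fa]; exact huv _
  have ha' : ∀ i, u i = a' ↔ v i = a' := fun i => by
    rw [← realize_fa', ← realize_fa']; exact huv _
  have hy : ∀ i, (∃ r, u i = y r) ↔ (∃ r, v i = y r) := fun i => by
    rw [← realize_fy, ← realize_fy]; exact huv _
  have he : ∀ i j, u i = u j ↔ v i = v j := fun i j => by
    rw [← realize_feq, ← realize_feq]; exact huv _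
  have hx : ∀ i, (∃ k, u i = x k) → (∃ k, v i = x k) := by
    rintro i ⟨k, hk⟩
    have h1 := hz i
    have h2 := hb i
    have h3 := hb' i
    have h4 := ha i
    have h5 := ha' i
    have h6 := hy i
    rw [hk] at h1 h2 h3 h4 h5 h6
    rcases hv : v i with _ | _ | _ | _ | _ | l | r
    · simp [hv] at h4
    · simp [hv] at h5
    · simp [hv] at h2
    · simp [hv] at h3
    · simp [hv] at h1
    · exact ⟨l, rfl⟩
    · simp [hv] at h6
  -- the two permutations
  obtain ⟨f, hf⟩ : ∃ f : Equiv.Perm ℕ, ∀ i k l, u i = x k → v i = x l → f k = l := by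
    choose p hp using fun i : {i // ∃ k, u i = x k} => i.2
    choose q hq using fun i : {i // ∃ k, u i = x k} => hx i i.2
    obtain ⟨f, hf⟩ := perm_ext p q (fun i j => by
      have h1 := he i j
      rw [hp, hp, hq, hq, x.injEq, x.injEq] at h1
      exact h1)
    refine ⟨f, fun i k l hk hl => ?_⟩
    have h1 := hf ⟨i, k, hk⟩
    have h2 := hp ⟨i, k, hk⟩
    have h3 := hq ⟨i, k, hk⟩
    rw [x.inj (hk.symm.trans h2), x.inj (hl.symm.trans h3), h1]
  obtain ⟨g, hg⟩ : ∃ g : Equiv.Perm Y, ∀ i k l, u i = y k → v i = y l → g k = l := by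
    choose p hp using fun i : {i // ∃ k, u i = y k} => i.2
    choose q hq using fun i : {i // ∃ k, u i = y k} => (hy i).1 i.2
    obtain ⟨g, hg⟩ := perm_ext p q (fun i j => by
      have h1 := he i j
      rw [hp, hp, hq, hq, y.injEq, y.injEq] at h1
      exact h1)
    refine ⟨g, fun i k l hk hl => ?_⟩
    have h1 := hg ⟨i, k, hk⟩
    have h2 := hp ⟨i, k, hk⟩
    have h3 := hq ⟨i, k, hk⟩
    rw [y.inj (hk.symm.trans h2), y.inj (hl.symm.trans h3), h1]
  refine ⟨sgEquiv (perm f g), fun i => ?_⟩
  change map f g (u i) = v i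
  rcases hu : u i with _ | _ | _ | _ | _ | k | r
  · rw [(ha i).1 hu]; rfl
  · rw [(ha' i).1 hu]; rfl
  · rw [(hb i).1 hu]; rfl
  · rw [(hb' i).1 hu]; rfl
  · rw [(hz i).1 hu]; rfl
  · obtain ⟨l, hl⟩ := hx i ⟨k, hu⟩
    rw [hl, map, hf i k l hu hl]
  · obtain ⟨l, hl⟩ := (hy i).1 ⟨r, hu⟩
    rw [hl, map, hg i r l hu hl]

end Sg

/-! ### The two element field -/

theorem zmod2 : FieldLogicallyHomogeneous (ZMod 2) := by
  let _ : FirstOrder.Ring.CompatibleRing (ZMod 2) := FirstOrder.Ring.compatibleRingOfRing (ZMod 2)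
  intro n u v huv
  have h0 : ∀ (w : Fin n → ZMod 2) (i : Fin n),
      (Term.bdEqual (Term.var (Sum.inl i) + Term.var (Sum.inl i)) (Term.var (Sum.inl i)) :
        Language.ring.BoundedFormula (Fin n) 0).Realize w default ↔ w i + w i = w i := by
    intro w i
    simp
  have h1 : ∀ i, u i + u i = u i ↔ v i + v i = v i := fun i => by
    rw [← h0, ← h0]
    exact huv (Term.bdEqual (Term.var (Sum.inl i) + Term.var (Sum.inl i)) (Term.var (Sum.inl i)))
  have h2 : ∀ p q : ZMod 2, (p + p = p ↔ q + q = q) → p = q := by decide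
  exact ⟨FirstOrder.Language.Equiv.refl _ _, fun i => h2 _ _ (h1 i)⟩

/-! ### The semigroup algebra -/

open Sg

/-- the semigroup algebra -/
abbrev A (Y : Type) : Type := MonoidAlgebra (ZMod 2) (Sg Y)

/-- isomorphisms of algebras as isomorphisms of structures -/
def algEquiv {P U V : Type} [NonUnitalRing U] [SMul P U] [NonUnitalRing V] [SMul P V]
    (f : U → V) (g : V → U) (hgf : ∀ u, g (f u) = u) (hfg : ∀ v, f (g v) = v)
    (hadd : ∀ u v, f (u + v) = f u + f v) (hmul : ∀ u v, f (u * v) = f u * f v)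
    (hneg : ∀ u, f (-u) = - f u) (hzero : f 0 = 0) (hsmul : ∀ (c : P) u, f (c • u) = c • f u) :
    U ≃[Lalg P] V where
  toFun := f
  invFun := g
  left_inv := hgf
  right_inv := hfg
  map_fun' := by
    intro n φ w
    change AlgFun P n at φ
    cases φ
    · exact hadd (w 0) (w 1)
    · exact hmul (w 0) (w 1)
    · exact hneg (w 0)
    · exact hzero
    · exact hsmul _ (w 0)
  map_rel' := fun {_} r _ => nomatch r

/-- injective homomorphisms of algebras as embeddings of structures -/
def algEmbedding {P U V : Type} [NonUnitalRing U] [SMul P U] [NonUnitalRing V] [SMul P V]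
    (f : U → V) (hinj : Function.Injective f)
    (hadd : ∀ u v, f (u + v) = f u + f v) (hmul : ∀ u v, f (u * v) = f u * f v)
    (hneg : ∀ u, f (-u) = - f u) (hzero : f 0 = 0) (hsmul : ∀ (c : P) u, f (c • u) = c • f u) :
    U ↪[Lalg P] V where
  toFun := f
  inj' := hinj
  map_fun' := by
    intro n φ w
    change AlgFun P n at φ
    cases φ
    · exact hadd (w 0) (w 1)
    · exact hmul (w 0) (w 1)
    · exact hneg (w 0)
    · exact hzero
    · exact hsmul _ (w 0)
  map_rel' := fun {_} r _ => nomatch r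

/-- renaming the letters in the algebra -/
noncomputable def M {Y Y' : Type} (g : Y → Y') : A Y →ₙₐ[ZMod 2] A Y' where
  toFun := MonoidAlgebra.mapDomain (Sg.map id g)
  map_smul' c u := by
    ext t
    simp
  map_zero' := MonoidAlgebra.mapDomain_zero _
  map_add' := MonoidAlgebra.mapDomain_add _
  map_mul' u v := MonoidAlgebra.mapDomain_mul
    (⟨Sg.map id g, Sg.map_mul id g⟩ : Sg Y →ₙ* Sg Y') u v

theorem M_apply {Y Y' : Type} (g : Y → Y') (u : A Y) :
    M g u = MonoidAlgebra.mapDomain (Sg.map id g) u := rfl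

theorem Sg.map_injective {Y Y' : Type} {g : Y → Y'} (hg : Function.Injective g) :
    Function.Injective (Sg.map id g) := by
  intro s t h
  cases s <;> cases t <;> simp_all [Sg.map]
  exact hg h

theorem Sg.map_map {Y Y' Y'' : Type} (g : Y → Y') (g' : Y' → Y'') (s : Sg Y) :
    Sg.map id g' (Sg.map id g s) = Sg.map id (g' ∘ g) s := by
  cases s <;> rfl

theorem M_M {Y Y' Y'' : Type} (g : Y → Y') (g' : Y' → Y'') (u : A Y) :
    M g' (M g u) = M (g' ∘ g) u := by
  apply MonoidAlgebra.coeff_injective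
  rw [M_apply, M_apply, M_apply]
  rw [MonoidAlgebra.coeff_mapDomain, MonoidAlgebra.coeff_mapDomain, MonoidAlgebra.coeff_mapDomain,
    ← Finsupp.mapDomain_comp]
  exact Finsupp.mapDomain_congr (fun s _ => Sg.map_map g g' s)

theorem M_eq_self {Y : Type} (g : Y → Y) (u : A Y)
    (h : ∀ s ∈ u.coeff.support, Sg.map id g s = s) : M g u = u := by
  apply MonoidAlgebra.coeff_injective
  rw [M_apply, MonoidAlgebra.coeff_mapDomain]
  refine (Finsupp.mapDomain_congr (g := id) h).trans ?_
  exact Finsupp.mapDomain_id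

theorem Sg.map_id_id {Y : Type} (s : Sg Y) : Sg.map id id s = s := by cases s <;> rfl

theorem M_id {Y : Type} (u : A Y) : M id u = u := M_eq_self _ _ (fun s _ => Sg.map_id_id s)

/-- permuting the letters in the algebra -/
noncomputable def permA {Y : Type} (g : Equiv.Perm Y) : A Y ≃[Lalg (ZMod 2)] A Y :=
  algEquiv (M g) (M g.symm)
    (fun u => by rw [M_M, Equiv.symm_comp_self, M_id])
    (fun u => by rw [M_M, Equiv.self_comp_symm, M_id])
    (map_add _) (map_mul _) (map_neg _) (map_zero _) (map_smul _)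

/-- the inclusion -/
noncomputable def incA {Y : Type} (g : ℕ → Y) (hg : Function.Injective g) :
    A ℕ ↪[Lalg (ZMod 2)] A Y :=
  algEmbedding (M g) (MonoidAlgebra.mapDomain_injective (Sg.map_injective hg))
    (map_add _) (map_mul _) (map_neg _) (map_zero _) (map_smul _)

/-- a permutation fixing the finite set `F` (contained in the range of `g`) and moving the finite
set `E` into the range of `g` -/
theorem exists_perm {Y : Type} (g : ℕ → Y) (hg : Function.Injective g) (F E : Set Y)
    (hF : F.Finite) (hE : E.Finite) (hFg : F ⊆ Set.range g) :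
    ∃ h : Equiv.Perm Y, (∀ r ∈ F, h r = r) ∧ ∀ r ∈ E, h r ∈ Set.range g := by
  classical
  have hinf : (Set.range g \ F).Infinite := (Set.infinite_range_of_injective hg).sdiff hF
  obtain ⟨j⟩ : Nonempty (↥(E \ F) ↪ ↥(Set.range g \ F)) := by
    have := hinf.to_subtype
    have h1 : Finite ↥(E \ F) := (hE.subset Set.sdiff_subset).to_subtype
    obtain ⟨m, ⟨e⟩⟩ := Finite.exists_equiv_fin ↥(E \ F)
    exact ⟨(e.toEmbedding.trans Fin.valEmbedding).trans (Infinite.natEmbedding _)⟩
  have hfin : Finite ↥(F ∪ E) := (hF.union hE).to_subtype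
  have hmem : ∀ r : ↥(F ∪ E), r.1 ∉ F → r.1 ∈ E \ F := fun r hr => ⟨r.2.resolve_left hr, hr⟩
  let v : ↥(F ∪ E) → Y := fun r => if h : r.1 ∈ F then r.1 else (j ⟨r.1, hmem r h⟩).1
  have hv1 : ∀ r : ↥(F ∪ E), r.1 ∈ F → v r = r.1 := fun r hr => dif_pos hr
  have hv2 : ∀ (r : ↥(F ∪ E)) (hr : r.1 ∉ F), v r = (j ⟨r.1, hmem r hr⟩).1 :=
    fun r hr => dif_neg hr
  have hv3 : ∀ r s : ↥(F ∪ E), r.1 = s.1 ↔ v r = v s := by
    intro r s
    constructor
    · intro h
      rw [Subtype.ext h]
    · intro h
      by_cases hr : r.1 ∈ F <;> by_cases hs : s.1 ∈ F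
      · rwa [hv1 r hr, hv1 s hs] at h
      · rw [hv1 r hr, hv2 s hs] at h
        exact absurd (h ▸ hr) (j _).2.2
      · rw [hv2 r hr, hv1 s hs] at h
        exact absurd (h ▸ hs) (j _).2.2
      · rw [hv2 r hr, hv2 s hs] at h
        have := j.injective (Subtype.ext h)
        exact congrArg (fun t : ↥(E \ F) => t.1) this
  obtain ⟨h, hh⟩ := perm_ext (fun r : ↥(F ∪ E) => r.1) v hv3
  refine ⟨h, fun r hr => ?_, fun r hr => ?_⟩
  · have := hh ⟨r, Or.inl hr⟩
    rw [hv1 _ hr] at this
    exact this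
  · have := hh ⟨r, Or.inr hr⟩
    have h1 : h r = v ⟨r, Or.inr hr⟩ := this
    rw [h1]
    by_cases hrF : r ∈ F
    · rw [hv1 _ hrF]
      exact hFg hrF
    · rw [hv2 _ hrF]
      exact (j _).2.1

/-- the letters occurring in an element -/
def letters {Y : Type} (u : A Y) : Set Y := {r | y r ∈ u.coeff.support}

theorem letters_finite {Y : Type} (u : A Y) : (letters u).Finite := by
  refine Set.Finite.preimage ?_ u.coeff.support.finite_toSet
  intro r _ s _ h
  exact y.inj h

theorem letters_M {Y Y' : Type} (g : Y → Y') (u : A Y) (r : Y') (hr : r ∈ letters (M g u)) :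
    ∃ s ∈ letters u, g s = r := by
  classical
  have h1 : y r ∈ (Finsupp.mapDomain (Sg.map id g) u.coeff).support := hr
  have h2 := Finsupp.mapDomain_support h1
  rw [Finset.mem_image] at h2
  obtain ⟨t, ht, hte⟩ := h2
  cases t <;> simp [Sg.map] at hte
  exact ⟨_, ht, hte⟩

theorem exists_eq_M {Y : Type} (g : ℕ → Y) (hg : Function.Injective g) (u : A Y)
    (h : letters u ⊆ Set.range g) : ∃ w, M g w = u := by
  refine ⟨MonoidAlgebra.comapDomain _ (Sg.map_injective hg) u, ?_⟩
  refine MonoidAlgebra.mapDomain_comapDomain ?_ (Sg.map_injective hg)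
  intro s hs
  cases s with
  | a => exact ⟨a, rfl⟩
  | a' => exact ⟨a', rfl⟩
  | b => exact ⟨b, rfl⟩
  | b' => exact ⟨b', rfl⟩
  | z => exact ⟨z, rfl⟩
  | x k => exact ⟨x k, rfl⟩
  | y r =>
    obtain ⟨k, hk⟩ := h hs
    exact ⟨y k, by rw [Sg.map, hk]⟩

theorem M_eq_self' {Y : Type} (g : Y → Y) (u : A Y) (h : ∀ r ∈ letters u, g r = r) :
    M g u = u := by
  refine M_eq_self g u (fun s hs => ?_)
  cases s with
  | y r => rw [Sg.map, h r hs]
  | _ => rfl

theorem elementary {Y : Type} (g : ℕ → Y) (hg : Function.Injective g) {n : ℕ}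
    (φ : (Lalg (ZMod 2)).Formula (Fin n)) (u : Fin n → A ℕ) :
    φ.Realize (M g ∘ u) ↔ φ.Realize u := by
  refine Embedding.isElementary_of_exists (incA g hg) ?_ φ u
  intro m ψ w d hd
  obtain ⟨h, hF, hE⟩ := exists_perm g hg (⋃ i, letters (M g (w i))) (letters d)
    (Set.finite_iUnion fun i => letters_finite _) (letters_finite d) (by
      intro r hr
      obtain ⟨i, hi⟩ := Set.mem_iUnion.1 hr
      obtain ⟨s, -, hs⟩ := letters_M g _ r hi
      exact ⟨s, hs⟩)
  obtain ⟨d', hd'⟩ := exists_eq_M g hg (M h d) (by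
    intro r hr
    obtain ⟨s, hs, rfl⟩ := letters_M h _ r hr
    exact hE s hs)
  refine ⟨d', ?_⟩
  have key : (permA h : A Y → A Y) ∘ (Fin.snoc (incA g hg ∘ w) d : Fin (m + 1) → A Y) =
      (Fin.snoc (incA g hg ∘ w) (incA g hg d') : Fin (m + 1) → A Y) := by
    funext i
    refine Fin.lastCases ?_ (fun i => ?_) i
    · simp only [Function.comp_apply, Fin.snoc_last]
      exact hd'.symm
    · simp only [Function.comp_apply, Fin.snoc_castSucc]
      exact M_eq_self' h _ (fun r hr => hF r (Set.mem_iUnion.2 ⟨i, hr⟩))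
  rw [← key]
  have h9 := (StrongHomClass.realize_boundedFormula (permA h) ψ).2 hd
  have h10 : ∀ (p q : Empty → A Y) (xs : Fin (m + 1) → A Y), ψ.Realize p xs → ψ.Realize q xs := by
    intro p q xs hh
    rwa [Subsingleton.elim q p]
  exact h10 _ _ _ h9

/-! ### The automorphism exchanging `a` and `b` -/

/-- the basis element -/
noncomputable abbrev e {Y : Type} (s : Sg Y) : A Y := MonoidAlgebra.single s 1

theorem add_self (Y : Type) (u : A Y) : u + u = 0 := by
  ext s
  simp [CharTwo.add_self_eq_zero]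

theorem e_mul {Y : Type} (s t : Sg Y) : (e s : A Y) * e t = e (s * t) := by
  rw [MonoidAlgebra.single_mul_single, mul_one]

/-- the images of the basis elements -/
noncomputable def swapFun : Sg ℕ → A ℕ
  | a => e b
  | a' => e b + e b' + e z
  | b => e a
  | b' => e a + e a' + e z
  | z => e z
  | x n => e (y n)
  | y n => e (x n)

theorem swapFun_mul (s t : Sg ℕ) : swapFun (s * t) = swapFun s * swapFun t := by
  ext r
  cases s <;> cases t <;> simp [swapFun, Sg.mul_def, Sg.mul, mul_add, add_mul] <;>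
    ring_nf <;> reduce_mod_char

/-- the homomorphism exchanging `a` and `b` -/
noncomputable def swap : A ℕ →ₙₐ[ZMod 2] A ℕ :=
  MonoidAlgebra.liftMagma (ZMod 2) ⟨swapFun, swapFun_mul⟩

theorem swap_e (s : Sg ℕ) : swap (e s) = swapFun s := by
  simp [swap, MonoidAlgebra.liftMagma]

theorem swap_swap (u : A ℕ) : swap (swap u) = u := by
  induction u using MonoidAlgebra.induction_linear with
  | zero => rw [map_zero, map_zero]
  | add u v hu hv => rw [map_add, map_add, hu, hv]
  | single s c =>
    have h1 : (MonoidAlgebra.single s c : A ℕ) = c • e s := by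
      rw [MonoidAlgebra.smul_single, smul_eq_mul, mul_one]
    rw [h1, map_smul, map_smul]
    congr 1
    rw [swap_e]
    ext r
    cases s <;> simp [swapFun, swap_e] <;> ring_nf <;> reduce_mod_char

/-- the automorphism exchanging `a` and `b` -/
noncomputable def swapEquiv : A ℕ ≃[Lalg (ZMod 2)] A ℕ :=
  algEquiv swap swap swap_swap swap_swap
    (map_add _) (map_mul _) (map_neg _) (map_zero _) (map_smul _)

theorem same_type {Y : Type} (g : ℕ → Y) (hg : Function.Injective g)
    (φ : (Lalg (ZMod 2)).Formula (Fin 1)) :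
    φ.Realize (fun _ => (e a : A Y)) ↔ φ.Realize (fun _ => (e b : A Y)) := by
  have h1 : (fun _ : Fin 1 => (e a : A Y)) = M g ∘ (fun _ => (e a : A ℕ)) := by
    funext i
    exact (MonoidAlgebra.mapDomain_single (f := Sg.map id g) (a := a) (r := (1 : ZMod 2))).symm
  have h2 : (fun _ : Fin 1 => (e b : A Y)) = M g ∘ (fun _ => (e b : A ℕ)) := by
    funext i
    exact (MonoidAlgebra.mapDomain_single (f := Sg.map id g) (a := b) (r := (1 : ZMod 2))).symm
  rw [h1, h2, elementary g hg, elementary g hg]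
  have h3 : (fun _ : Fin 1 => (e b : A ℕ)) = swapEquiv ∘ (fun _ => (e a : A ℕ)) := by
    funext i
    exact (swap_e a).symm
  rw [h3]
  exact (StrongHomClass.realize_formula swapEquiv φ).symm

/-! ### The two elements are not conjugate -/

instance : Countable (Sg Empty) := by
  let f : Sg Empty → ℕ × ℕ := fun s => match s with
    | a => (0, 0)
    | a' => (1, 0)
    | b => (2, 0)
    | b' => (3, 0)
    | z => (4, 0)
    | x n => (5, n)
  have hf : Function.Injective f := by
    intro s t h
    cases s <;> cases t <;> simp_all [f] <;> contradiction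
  exact hf.countable

instance : Countable (A Empty) :=
  (MonoidAlgebra.coeff_injective (R := ZMod 2) (M := Sg Empty)).countable

theorem ea_mul {Y : Type} (u : A Y) : ∃ w : A Empty, M (Empty.elim : Empty → Y) w = e a * u := by
  induction u using MonoidAlgebra.induction_linear with
  | zero => exact ⟨0, by rw [map_zero, mul_zero]⟩
  | add u v hu hv =>
    obtain ⟨w, hw⟩ := hu
    obtain ⟨w', hw'⟩ := hv
    exact ⟨w + w', by rw [map_add, hw, hw', mul_add]⟩
  | single s c =>
    obtain ⟨t, ht⟩ : ∃ t : Sg Empty, Sg.map id Empty.elim t = a * s := by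
      cases s with
      | a => exact ⟨a, rfl⟩
      | a' => exact ⟨a', rfl⟩
      | x n => exact ⟨x n, rfl⟩
      | _ => exact ⟨z, rfl⟩
    refine ⟨MonoidAlgebra.single t c, ?_⟩
    rw [M_apply, MonoidAlgebra.mapDomain_single, ht, MonoidAlgebra.single_mul_single, one_mul]

theorem not_conj {Y : Type} [Uncountable Y] (σ : A Y ≃[Lalg (ZMod 2)] A Y) :
    σ (e a) ≠ e b := by
  intro h
  have hmul : ∀ u v, σ (u * v) = σ u * σ v := fun u v =>
    HomClass.map_fun σ (AlgFun.mul : (Lalg (ZMod 2)).Functions 2) ![u, v]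
  have h1 : (Set.range fun u : A Y => (e a : A Y) * u).Countable := by
    refine (Set.countable_range (M (Empty.elim : Empty → Y))).mono ?_
    rintro _ ⟨u, rfl⟩
    exact ea_mul u
  have h2 : (Set.range fun r : Y => (e (y r) : A Y)).Countable := by
    refine (h1.image σ).mono ?_
    rintro _ ⟨r, rfl⟩
    refine ⟨e a * σ.symm (e (y r)), ⟨_, rfl⟩, ?_⟩
    rw [hmul, h]
    have : σ (σ.symm (e (y r))) = e (y r) := σ.toEquiv.apply_symm_apply _
    rw [this, e_mul]
    rfl
  have h3 : Function.Injective fun r : Y => (e (y r) : A Y) := by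
    intro r s hrs
    have := (MonoidAlgebra.single_left_inj (one_ne_zero)).1 hrs
    exact y.inj this
  have h4 : Countable Y := by
    have := h2.to_subtype
    exact (Set.rangeFactorization_injective.2 h3).countable
  exact not_countable h4

/-! ### The result -/

theorem result : ∃ (S : Type) (_ : Semigroup S) (P : Type) (_ : Field P),
    LogicallyHomogeneous Lsg S ∧ FieldLogicallyHomogeneous P ∧
      ¬ LogicallyHomogeneous (Lalg P) (MonoidAlgebra P S) := by
  refine ⟨Sg (Set ℕ), inferInstance, ZMod 2, inferInstance, Sg.homogeneous _, zmod2, ?_⟩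
  intro h
  obtain ⟨σ, hσ⟩ := h 1 (fun _ => e a) (fun _ => e b)
    (same_type (fun n : ℕ => ({n} : Set ℕ)) (fun m n h => Set.singleton_injective h))
  have : Uncountable (Set ℕ) := by
    refine ⟨fun hc => ?_⟩
    obtain ⟨f, hf⟩ := exists_injective_nat (Set ℕ)
    exact Function.cantor_injective f hf
  exact not_conj σ (hσ 0)

end Pool.Agent.Results.MP_c05c30_lc.Counterexample
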